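import Pool.Agent.H88.MX.Ring

/-!
# Refinements of decompositions
-/

set_option autoImplicit false
set_option linter.unusedSectionVars false

namespace Pool.Agent.H88.MX

variable {F R : Type*} [Field F] [Ring R] [Algebra F R] {κ : Type*} [DecidableEq κ]

/-- The idempotents `P i`, `i ∈ s`, are orthogonal. -/
def Orth (P : κ → R) (s : Finset κ) : Prop :=
  (∀ i ∈ s, P i * P i = P i) ∧ ∀ i ∈ s, ∀ j ∈ s, i ≠ j → P i * P j = 0

/-- The idempotent `f` is the sum of orthogonal idempotents which are isomorphic to summands of the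
idempotents `P i`. -/
def Refines (f : R) (P : κ → R) (s : Finset κ) : Prop :=
  ∃ p : κ → R, Orth p s ∧ (∀ i ∈ s, Sub (p i) (P i)) ∧ ∑ i ∈ s, p i = f

theorem Orth.sum_mul {P : κ → R} {s : Finset κ} (h : Orth P s) {i : κ} (hi : i ∈ s) :
    (∑ j ∈ s, P j) * P i = P i := by
  rw [Finset.sum_mul, Finset.sum_eq_single_of_mem i hi fun j hj hji => h.2 j hj i hi hji,
    h.1 i hi]

theorem Orth.mul_sum {P : κ → R} {s : Finset κ} (h : Orth P s) {i : κ} (hi : i ∈ s) :
    P i * (∑ j ∈ s, P j) = P i := by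
  rw [Finset.mul_sum, Finset.sum_eq_single_of_mem i hi fun j hj hji => h.2 i hi j hj hji.symm,
    h.1 i hi]

theorem Orth.sum_idem {P : κ → R} {s : Finset κ} (h : Orth P s) :
    (∑ j ∈ s, P j) * (∑ j ∈ s, P j) = ∑ j ∈ s, P j := by
  rw [Finset.mul_sum]
  exact Finset.sum_congr rfl fun i hi => h.sum_mul hi

theorem Orth.mono {P : κ → R} {s t : Finset κ} (h : Orth P s) (hts : t ⊆ s) : Orth P t :=
  ⟨fun i hi => h.1 i (hts hi), fun i hi j hj hij => h.2 i (hts hi) j (hts hj) hij⟩

theorem Orth.not_mem {P : κ → R} {s : Finset κ} {a : κ} (ha : a ∉ s) (h : Orth P (insert a s)) :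
    P a * (∑ j ∈ s, P j) = 0 ∧ (∑ j ∈ s, P j) * P a = 0 := by
  constructor
  · rw [Finset.mul_sum]
    refine Finset.sum_eq_zero fun j hj => h.2 a (Finset.mem_insert_self _ _) j
      (Finset.mem_insert_of_mem hj) ?_
    rintro rfl; exact ha hj
  · rw [Finset.sum_mul]
    refine Finset.sum_eq_zero fun j hj => h.2 j (Finset.mem_insert_of_mem hj) a
      (Finset.mem_insert_self _ _) ?_
    rintro rfl; exact ha hj

theorem Refines.eqv {e e' : R} {P : κ → R} {s : Finset κ} (h : Refines e' P s) (he : Eqv e e') :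
    Refines e P s := by
  obtain ⟨p, hp, hsub, rfl⟩ := h
  obtain ⟨a, b, h1, h2, h3, h4, h5, h6⟩ := he
  set e' := ∑ i ∈ s, p i with he'
  have k1 : ∀ i ∈ s, e' * p i = p i := fun i hi => hp.sum_mul hi
  have k2 : ∀ i ∈ s, ∀ j, a * p i * b * (a * p j * b) = a * (p i * p j) * b ∨ j ∉ s := by
    intro i hi j
    by_cases hj : j ∈ s
    · left
      calc a * p i * b * (a * p j * b) = a * p i * ((b * a) * p j) * b := by noncomm_ring
        _ = a * (p i * p j) * b := by rw [h2, k1 j hj]; noncomm_ring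
    · exact Or.inr hj
  refine ⟨fun i => a * p i * b, ⟨fun i hi => ?_, fun i hi j hj hij => ?_⟩, fun i hi => ?_, ?_⟩
  · rcases k2 i hi i with h7 | h7
    · show a * p i * b * (a * p i * b) = a * p i * b
      rw [h7, hp.1 i hi]
    · exact absurd hi h7
  · rcases k2 i hi j with h7 | h7
    · show a * p i * b * (a * p j * b) = 0
      rw [h7, hp.2 i hi j hj hij, mul_zero, zero_mul]
    · exact absurd hj h7
  · refine Sub.trans (y := p i) ⟨a * p i, p i * b, ?_, ?_, ?_, ?_, ?_⟩ (hsub i hi)
    · rw [mul_assoc, ← mul_assoc (p i), hp.1 i hi]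
      exact (mul_assoc _ _ _).symm
    · calc a * p i * b * (a * p i) = a * p i * ((b * a) * p i) := by noncomm_ring
        _ = a * p i := by rw [h2, k1 i hi, mul_assoc, hp.1 i hi]
    · rw [mul_assoc, hp.1 i hi]
    · rw [← mul_assoc, hp.1 i hi]
    · calc p i * b * (a * p i * b) = p i * ((b * a) * p i) * b := by noncomm_ring
        _ = p i * b := by rw [h2, k1 i hi, hp.1 i hi]
  · rw [← Finset.sum_mul, ← Finset.mul_sum, h4, h1]

theorem Refines.insert {A B : R} {P : κ → R} {s : Finset κ} {a : κ} (ha : a ∉ s)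
    (hA : A * A = A) (hAP : Sub A (P a)) (hB : Refines B P s) (hAB : A * B = 0) (hBA : B * A = 0) :
    Refines (A + B) P (insert a s) := by
  obtain ⟨p, hp, hsub, rfl⟩ := hB
  have h1 : ∀ i ∈ s, A * p i = 0 := fun i hi => by
    rw [← hp.sum_mul hi, ← mul_assoc, hAB, zero_mul]
  have h2 : ∀ i ∈ s, p i * A = 0 := fun i hi => by
    rw [← hp.mul_sum hi, mul_assoc, hBA, mul_zero]
  have hne : ∀ i ∈ s, i ≠ a := fun i hi h => ha (h ▸ hi)
  set q : κ → R := Function.update p a A with hq
  have hqa : q a = A := Function.update_self _ _ _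
  have hqi : ∀ i ∈ s, q i = p i := fun i hi => Function.update_of_ne (hne i hi) _ _
  refine ⟨q, ⟨fun i hi => ?_, fun i hi j hj hij => ?_⟩, fun i hi => ?_, ?_⟩
  · rcases Finset.mem_insert.1 hi with rfl | hi
    · rw [hqa, hA]
    · rw [hqi i hi, hp.1 i hi]
  · rcases Finset.mem_insert.1 hi with hi' | hi'
    · rcases Finset.mem_insert.1 hj with hj' | hj'
      · exact absurd (hi'.trans hj'.symm) hij
      · rw [hi', hqa, hqi j hj', h1 j hj']
    · rcases Finset.mem_insert.1 hj with hj' | hj'
      · rw [hj', hqa, hqi i hi', h2 i hi']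
      · rw [hqi i hi', hqi j hj', hp.2 i hi' j hj' hij]
  · rcases Finset.mem_insert.1 hi with rfl | hi
    · rw [hqa]; exact hAP
    · rw [hqi i hi]; exact hsub i hi
  · rw [Finset.sum_insert ha, hqa]
    congr 1
    exact Finset.sum_congr rfl hqi

theorem refines_empty {P : κ → R} : Refines (0 : R) P ∅ :=
  ⟨fun _ => 0, ⟨fun _ hi => absurd hi (Finset.notMem_empty _),
    fun _ hi => absurd hi (Finset.notMem_empty _)⟩, fun _ hi => absurd hi (Finset.notMem_empty _),
    Finset.sum_empty⟩

/-- **Removing a summand with algebraic endomorphisms.** -/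
theorem refines_of_alg (P : κ → R) (s : Finset κ) (hP : Orth P s) : ∀ e f : R, e * e = e →
    f * f = f → e * f = 0 → f * e = 0 → e + f = ∑ i ∈ s, P i → AlgCorner F e →
      Refines e P s ∧ Refines f P s := by
  induction s using Finset.induction_on with
  | empty =>
    intro e f he hf hef hfe hsum _
    rw [Finset.sum_empty] at hsum
    have h1 : e = 0 := by
      calc e = e * (e + f) := by rw [mul_add, he, hef, add_zero]
        _ = 0 := by rw [hsum, mul_zero]
    have h2 : f = 0 := by rw [h1, zero_add] at hsum; exact hsum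
    rw [h1, h2]
    exact ⟨refines_empty, refines_empty⟩
  | insert a s ha ih =>
    intro e f he hf hef hfe hsum hN
    rw [Finset.sum_insert ha] at hsum
    obtain ⟨h1, h2⟩ := hP.not_mem ha
    have hPs := hP.mono (Finset.subset_insert a s)
    have haa := hP.1 a (Finset.mem_insert_self _ _)
    obtain ⟨A₁, A₂, B₁, B₂, hA, hB, i1, i2, i3, i4, j1, j2, j3, j4, he', hf'⟩ :=
      exchange he hf hef hfe haa hPs.sum_idem h1 h2 hsum hN
    have l1 : A₂ * P a = A₂ := by rw [← hA, mul_add, i4, i2, zero_add]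
    have l1' : P a * A₂ = A₂ := by rw [← hA, add_mul, i3, i2, zero_add]
    have l2 : A₁ * P a = A₁ := by rw [← hA, mul_add, i3, i1, add_zero]
    have l2' : P a * A₁ = A₁ := by rw [← hA, add_mul, i4, i1, add_zero]
    have m1 : B₂ * (∑ i ∈ s, P i) = B₂ := by rw [← hB, mul_add, j4, j2, zero_add]
    have m1' : (∑ i ∈ s, P i) * B₂ = B₂ := by rw [← hB, add_mul, j3, j2, zero_add]
    have m2 : B₁ * (∑ i ∈ s, P i) = B₁ := by rw [← hB, mul_add, j3, j1, add_zero]
    have m2' : (∑ i ∈ s, P i) * B₁ = B₁ := by rw [← hB, add_mul, j4, j1, add_zero]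
    have n1 : A₂ * B₂ = 0 := by rw [← l1, ← m1', mul_assoc, ← mul_assoc (P a), h1, zero_mul, mul_zero]
    have n2 : B₂ * A₂ = 0 := by
      rw [← l1', ← m1, mul_assoc, ← mul_assoc (∑ i ∈ s, P i), h2, zero_mul, mul_zero]
    have n3 : A₁ * B₁ = 0 := by rw [← l2, ← m2', mul_assoc, ← mul_assoc (P a), h1, zero_mul, mul_zero]
    have n4 : B₁ * A₁ = 0 := by
      rw [← l2', ← m2, mul_assoc, ← mul_assoc (∑ i ∈ s, P i), h2, zero_mul, mul_zero]
    have hB2 : AlgCorner F B₂ := by
      refine AlgCorner.of_sub (Sub.trans (Sub.of_le j2 ?_ ?_) he'.symm.sub) hN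
      · rw [mul_add, n2, j2, zero_add]
      · rw [add_mul, n1, j2, zero_add]
    obtain ⟨k1, k2⟩ := ih hPs B₂ B₁ j2 j1 j4 j3 (by rw [add_comm, hB]) hB2
    exact ⟨(Refines.insert ha i2 (Sub.of_le i2 l1 l1') k1 n1 n2).eqv he',
      (Refines.insert ha i1 (Sub.of_le i1 l2 l2') k2 n3 n4).eqv hf'⟩

/-- **All summands, if all pieces but one have algebraic endomorphisms.** -/
theorem refines_of_pieces (P : κ → R) (w : κ) (s : Finset κ) (hw : w ∉ s)
    (hP : Orth P (insert w s)) (hN : ∀ i ∈ s, AlgCorner F (P i)) : ∀ f f' : R, f * f = f →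
      f' * f' = f' → f * f' = 0 → f' * f = 0 → Eqv (f + f') (∑ i ∈ insert w s, P i) →
      Refines f P (insert w s) := by
  induction s using Finset.induction_on with
  | empty =>
    intro f f' hf hf' h1 h2 h3
    rw [LawfulSingleton.insert_empty_eq, Finset.sum_singleton] at h3
    have h4 : Sub f (P w) := by
      refine Sub.trans (Sub.of_le hf ?_ ?_) h3.sub
      · rw [mul_add, hf, h1, add_zero]
      · rw [add_mul, hf, h2, add_zero]
    have h5 := Refines.insert (s := ∅) (Finset.notMem_empty w) hf h4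
      (refines_empty (P := P)) (mul_zero f) (zero_mul f)
    rwa [add_zero] at h5
  | insert a s ha ih =>
    intro f f' hf hf' h1 h2 h3
    have haw : a ≠ w := fun h => hw (h ▸ Finset.mem_insert_self _ _)
    have hws : w ∉ s := fun h => hw (Finset.mem_insert_of_mem h)
    have ha' : a ∉ insert w s := fun h => by
      rcases Finset.mem_insert.1 h with h | h
      · exact haw h
      · exact ha h
    rw [Finset.insert_comm] at hP h3 ⊢
    rw [Finset.sum_insert ha'] at h3
    obtain ⟨o1, o2⟩ := hP.not_mem ha'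
    have hPs := hP.mono (Finset.subset_insert a (insert w s))
    have haa := hP.1 a (Finset.mem_insert_self _ _)
    set T := ∑ i ∈ insert w s, P i with hT
    have hTT : T * T = T := hPs.sum_idem
    obtain ⟨x, y, q1, q2, q3, q4, q5, q6⟩ := h3
    have c1 : P a * (y * x) = P a := by rw [q2, mul_add, haa, o1, add_zero]
    have c2 : T * (y * x) = T := by rw [q2, mul_add, hTT, o2, zero_add]
    set e := x * P a * y with he
    set k := x * T * y with hk
    have e1 : e * e = e := by
      calc e * e = x * (P a * (y * x)) * P a * y := by rw [he]; noncomm_ring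
        _ = e := by rw [c1, mul_assoc x, haa]
    have e2 : k * k = k := by
      calc k * k = x * (T * (y * x)) * T * y := by rw [hk]; noncomm_ring
        _ = k := by rw [c2, mul_assoc x, hTT]
    have e3 : e * k = 0 := by
      calc e * k = x * (P a * (y * x)) * T * y := by rw [he, hk]; noncomm_ring
        _ = 0 := by rw [c1, mul_assoc x, o1, mul_zero, zero_mul]
    have e4 : k * e = 0 := by
      calc k * e = x * (T * (y * x)) * P a * y := by rw [he, hk]; noncomm_ring
        _ = 0 := by rw [c2, mul_assoc x, o2, mul_zero, zero_mul]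
    have e5 : e + k = f + f' := by
      rw [he, hk, ← add_mul, ← mul_add, q4, q1]
    have hea : Eqv e (P a) := by
      refine ⟨x * P a, P a * y, ?_, ?_, ?_, ?_, ?_, ?_⟩
      · rw [mul_assoc, ← mul_assoc (P a), haa, he, mul_assoc]
      · calc P a * y * (x * P a) = (P a * (y * x)) * P a := by noncomm_ring
          _ = P a := by rw [c1, haa]
      · calc e * (x * P a) = x * (P a * (y * x)) * P a := by rw [he]; noncomm_ring
          _ = x * P a := by rw [c1, mul_assoc, haa]
      · rw [mul_assoc, haa]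
      · rw [← mul_assoc, haa]
      · calc P a * y * e = (P a * (y * x)) * P a * y := by rw [he]; noncomm_ring
          _ = P a * y := by rw [c1, haa]
    have hkT : Eqv k T := by
      refine ⟨x * T, T * y, ?_, ?_, ?_, ?_, ?_, ?_⟩
      · rw [mul_assoc, ← mul_assoc T, hTT, hk, mul_assoc]
      · calc T * y * (x * T) = (T * (y * x)) * T := by noncomm_ring
          _ = T := by rw [c2, hTT]
      · calc k * (x * T) = x * (T * (y * x)) * T := by rw [hk]; noncomm_ring
          _ = x * T := by rw [c2, mul_assoc, hTT]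
      · rw [mul_assoc, hTT]
      · rw [← mul_assoc, hTT]
      · calc T * y * k = (T * (y * x)) * T * y := by rw [hk]; noncomm_ring
          _ = T * y := by rw [c2, hTT]
    obtain ⟨A₁, A₂, B₁, B₂, hA, hB, i1, i2, i3, i4, j1, j2, j3, j4, he', hf''⟩ :=
      exchange e1 e2 e3 e4 hf hf' h1 h2 e5
        (AlgCorner.of_sub hea.sub (hN a (Finset.mem_insert_self _ _)))
    have l1 : A₂ * f = A₂ := by rw [← hA, mul_add, i4, i2, zero_add]
    have l1' : f * A₂ = A₂ := by rw [← hA, add_mul, i3, i2, zero_add]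
    have l2 : A₁ * f = A₁ := by rw [← hA, mul_add, i3, i1, add_zero]
    have l2' : f * A₁ = A₁ := by rw [← hA, add_mul, i4, i1, add_zero]
    have m1 : B₂ * f' = B₂ := by rw [← hB, mul_add, j4, j2, zero_add]
    have m1' : f' * B₂ = B₂ := by rw [← hB, add_mul, j3, j2, zero_add]
    have m2 : B₁ * f' = B₁ := by rw [← hB, mul_add, j3, j1, add_zero]
    have m2' : f' * B₁ = B₁ := by rw [← hB, add_mul, j4, j1, add_zero]
    have n1 : A₂ * B₂ = 0 := by rw [← l1, ← m1', mul_assoc, ← mul_assoc f, h1, zero_mul, mul_zero]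
    have n2 : B₂ * A₂ = 0 := by rw [← l1', ← m1, mul_assoc, ← mul_assoc f', h2, zero_mul, mul_zero]
    have n3 : A₁ * B₁ = 0 := by rw [← l2, ← m2', mul_assoc, ← mul_assoc f, h1, zero_mul, mul_zero]
    have n4 : B₁ * A₁ = 0 := by rw [← l2', ← m2, mul_assoc, ← mul_assoc f', h2, zero_mul, mul_zero]
    have r1 := ih hws hPs (fun i hi => hN i (Finset.mem_insert_of_mem hi)) A₁ B₁ i1 j1 n3 n4
      (hf''.symm.trans hkT)
    have r2 : Sub A₂ (P a) := by
      refine Sub.trans (Sub.of_le i2 ?_ ?_) (he'.symm.trans hea).sub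
      · rw [mul_add, n1, i2, add_zero]
      · rw [add_mul, n2, i2, add_zero]
    have r3 := Refines.insert ha' i2 r2 r1 i4 i3
    rwa [add_comm, hA] at r3

end Pool.Agent.H88.MX
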