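import Pool.Agent.H88.MX.Fam

/-!
# Murre's conjectures for summands and complements with algebraic endomorphisms
-/

set_option autoImplicit false
set_option linter.unusedSectionVars false

open CategoryTheory Polynomial

universe v u v' u'

namespace Pool.Agent.H88.MX

variable {𝒜 : Type u} [Category.{v} 𝒜] [Preadditive 𝒜] {𝒢 : Type u'} [Category.{v'} 𝒢]
  [Preadditive 𝒢]

/-- The morphism `f` is homologically trivial. -/
def Triv (H : ℤ → 𝒜 ⥤ 𝒢) {M N : 𝒜} (f : M ⟶ N) : Prop := ∀ j, (H j).map f = 0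

/-- The endomorphisms `p i` are the projectors of a Chow-Künneth decomposition `M = ⨁ M_i`: a finite
decomposition such that `H_j(M_i) = 0` for `j ≠ i`. -/
structure IsCK (H : ℤ → 𝒜 ⥤ 𝒢) (M : 𝒜) (p : ℤ → (M ⟶ M)) : Prop where
  idem : ∀ i, p i ≫ p i = p i
  orth : ∀ i j, i ≠ j → p i ≫ p j = 0
  sum : ∃ s : Finset ℤ, (∀ i, i ∉ s → p i = 0) ∧ ∑ i ∈ s, p i = 𝟙 M
  kun : ∀ i j, j ≠ i → (H j).map (p i) = 0

/-- Condition (B) for the decomposition `M = ⨁ M_i`: `CH_l(M_i) = 0` for `i < 2 l`, where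
`CH_l(M)` is the group of the morphisms `T l ⟶ M`. -/
def SatB (T : ℤ → 𝒜) {M : 𝒜} (p : ℤ → (M ⟶ M)) : Prop :=
  ∀ (l i : ℤ) (f : T l ⟶ M), i < 2 * l → f ≫ p i = 0

/-- Condition (D) for the decomposition `M = ⨁ M_i`: the homologically trivial elements of
`CH_l(M_(2 l))` are zero. -/
def SatD (T : ℤ → 𝒜) (H : ℤ → 𝒜 ⥤ 𝒢) {M : 𝒜} (p : ℤ → (M ⟶ M)) : Prop :=
  ∀ (l : ℤ) (f : T l ⟶ M), Triv H (f ≫ p (2 * l)) → f ≫ p (2 * l) = 0

/-- The element `f` of `CH_l(M)` is in `F^ν`, the sum of the `CH_l(M_i)` with `i ≥ 2 l + ν`. -/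
def Fil {T : ℤ → 𝒜} {M : 𝒜} (p : ℤ → (M ⟶ M)) {l : ℤ} (ν : ℤ) (f : T l ⟶ M) : Prop :=
  ∀ i, i < 2 * l + ν → f ≫ p i = 0

/-- (A): `M` has a Chow-Künneth decomposition. -/
def MurreA (H : ℤ → 𝒜 ⥤ 𝒢) (M : 𝒜) : Prop := ∃ p, IsCK H M p

/-- (A) and (B): `M` has a Chow-Künneth decomposition with (B). -/
def MurreAB (T : ℤ → 𝒜) (H : ℤ → 𝒜 ⥤ 𝒢) (M : 𝒜) : Prop := ∃ p, IsCK H M p ∧ SatB T p

/-- (A), (B) and (D): `M` has a Chow-Künneth decomposition with (B) and (D). -/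
def MurreABD (T : ℤ → 𝒜) (H : ℤ → 𝒜 ⥤ 𝒢) (M : 𝒜) : Prop :=
  ∃ p, IsCK H M p ∧ SatB T p ∧ SatD T H p

/-- (C): any two Chow-Künneth decompositions of `M` define the same filtrations of the groups
`CH_l(M)`. -/
def MurreC (T : ℤ → 𝒜) (H : ℤ → 𝒜 ⥤ 𝒢) (M : 𝒜) : Prop :=
  ∀ p p', IsCK H M p → IsCK H M p' → ∀ (l ν : ℤ) (f : T l ⟶ M), Fil p ν f → Fil p' ν f

/-- `Q` is the direct sum of `M` and `N`. -/
def IsSum (Q M N : 𝒜) : Prop :=
  ∃ (iM : M ⟶ Q) (rM : Q ⟶ M) (iN : N ⟶ Q) (rN : Q ⟶ N), iM ≫ rM = 𝟙 M ∧ iN ≫ rN = 𝟙 N ∧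
    iM ≫ rN = 0 ∧ iN ≫ rM = 0 ∧ rM ≫ iM + rN ≫ iN = 𝟙 Q

/-- All endomorphisms of `N` are algebraic over `ℚ`. -/
def AlgebraicEnd [Linear ℚ 𝒜] (N : 𝒜) : Prop := ∀ f : End N, IsAlgebraic ℚ f

/-- The endomorphisms of `N` form a finite dimensional space modulo nilpotent ones: there is a linear
map from `End N` to a finite dimensional space whose kernel consists of nilpotent endomorphisms. By
theorems of Kimura and Jannsen this is true if `N` is finite dimensional in the sense of Kimura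
(numerically trivial endomorphisms are nilpotent). -/
def FiniteModNil [Linear ℚ 𝒜] (N : 𝒜) : Prop :=
  ∃ (n : ℕ) (φ : End N →ₗ[ℚ] (Fin n → ℚ)), ∀ f : End N, φ f = 0 → IsNilpotent f

/-- All endomorphisms of the motive `(Q, p)` are algebraic over `ℚ`. -/
def AlgebraicPiece [Linear ℚ 𝒜] {Q : 𝒜} (p : Q ⟶ Q) : Prop :=
  ∀ f : End Q, p ≫ f = f → f ≫ p = f → IsAlgebraic ℚ f

theorem IsSum.symm {Q M N : 𝒜} (h : IsSum Q M N) : IsSum Q N M := by
  obtain ⟨a, b, c, d, h1, h2, h3, h4, h5⟩ := h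
  exact ⟨c, d, a, b, h2, h1, h4, h3, by rw [add_comm]; exact h5⟩

section

variable {H : ℤ → 𝒜 ⥤ 𝒢} [∀ j, (H j).Additive] {T : ℤ → 𝒜}

theorem Triv.comp {L M N : 𝒜} {f : L ⟶ M} (h : Triv H f) (g : M ⟶ N) : Triv H (f ≫ g) :=
  fun j => by rw [Functor.map_comp, h j, Limits.zero_comp]

/-- `(M, q)` is a summand of `(Q, p)`. -/
def Below {Q M : 𝒜} (q : M ⟶ M) (p : Q ⟶ Q) : Prop :=
  ∃ (a : M ⟶ Q) (b : Q ⟶ M), a ≫ b = q ∧ q ≫ a = a ∧ a ≫ p = a

theorem satB_of_below {Q M : 𝒜} {q : ℤ → (M ⟶ M)} {p : ℤ → (Q ⟶ Q)} (h : ∀ j, Below (q j) (p j))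
    (hB : SatB T p) : SatB T q := by
  intro l i f hi
  obtain ⟨a, b, h1, h2, h3⟩ := h i
  rw [← h1, ← Category.assoc, ← h3, ← Category.assoc, hB l i _ hi, Limits.zero_comp]

theorem satD_of_below {Q M : 𝒜} {q : ℤ → (M ⟶ M)} {p : ℤ → (Q ⟶ Q)} (h : ∀ j, Below (q j) (p j))
    (hD : SatD T H p) : SatD T H q := by
  intro l f hf
  obtain ⟨a, b, h1, h2, h3⟩ := h (2 * l)
  have h4 := hf.comp a
  rw [Category.assoc, h2] at h4
  have h5 : f ≫ a = (f ≫ a) ≫ p (2 * l) := by rw [Category.assoc, h3]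
  rw [h5] at h4
  have h6 := hD l _ h4
  rw [← h1, ← Category.assoc, h5, h6, Limits.zero_comp]

/-- A refinement of a Chow-Künneth decomposition of `Q` gives a decomposition of the summand. -/
theorem ck_of_refines {Q M : 𝒜} {i : M ⟶ Q} {r : Q ⟶ M} (hir : i ≫ r = 𝟙 M)
    {P : ℤ → (Q ⟶ Q)} (hP : IsCK H Q P) {s : Finset ℤ}
    (href : Refines (R := End Q) (r ≫ i : Q ⟶ Q) P s) :
    ∃ q : ℤ → (M ⟶ M), IsCK H M q ∧ ∀ j, Below (q j) (P j) := by
  classical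
  obtain ⟨p, hp, hsub, hsum⟩ := href
  have hsum' : ∑ j ∈ s, p j = (r ≫ i : Q ⟶ Q) := hsum
  have k1 : ∀ j ∈ s, (r ≫ i) ≫ p j = p j := fun j hj => by
    have := hp.mul_sum hj
    rw [hsum] at this
    exact this
  have k2 : ∀ j ∈ s, p j ≫ (r ≫ i) = p j := fun j hj => by
    have := hp.sum_mul hj
    rw [hsum] at this
    exact this
  have idp : ∀ j ∈ s, p j ≫ p j = p j := fun j hj => hp.1 j hj
  have op : ∀ j ∈ s, ∀ k ∈ s, j ≠ k → p j ≫ p k = 0 := fun j hj k hk hjk =>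
    hp.2 k hk j hj hjk.symm
  set q : ℤ → (M ⟶ M) := fun j => if j ∈ s then i ≫ p j ≫ r else 0 with hq
  have q1 : ∀ j ∈ s, q j = i ≫ p j ≫ r := fun j hj => by simp only [hq, if_pos hj]
  have q0 : ∀ j, j ∉ s → q j = 0 := fun j hj => by simp only [hq, if_neg hj]
  have qq : ∀ j ∈ s, ∀ k ∈ s, q j ≫ q k = i ≫ (p j ≫ p k) ≫ r := by
    intro j hj k hk
    rw [q1 j hj, q1 k hk]
    calc (i ≫ p j ≫ r) ≫ i ≫ p k ≫ r = i ≫ p j ≫ ((r ≫ i) ≫ p k) ≫ r := by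
          simp only [Category.assoc]
      _ = i ≫ (p j ≫ p k) ≫ r := by rw [k1 k hk]; simp only [Category.assoc]
  refine ⟨q, ⟨fun j => ?_, fun j k hjk => ?_, ⟨s, q0, ?_⟩, fun j k hkj => ?_⟩, fun j => ?_⟩
  · by_cases hj : j ∈ s
    · rw [qq j hj j hj, idp j hj, q1 j hj]
    · rw [q0 j hj, Limits.zero_comp]
  · by_cases hj : j ∈ s
    · by_cases hk : k ∈ s
      · rw [qq j hj k hk, op j hj k hk hjk, Limits.zero_comp, Limits.comp_zero]
      · rw [q0 k hk, Limits.comp_zero]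
    · rw [q0 j hj, Limits.zero_comp]
  · rw [Finset.sum_congr rfl q1, ← Preadditive.comp_sum, ← Preadditive.sum_comp, hsum',
      Category.assoc, hir, Category.comp_id, hir]
  · by_cases hj : j ∈ s
    · obtain ⟨a, b, h1, h2, h3, h4, h5⟩ := hsub j hj
      have e1 : b ≫ a = p j := h1
      have e2 : P j ≫ a = a := h3
      rw [q1 j hj, Functor.map_comp, Functor.map_comp, ← e1, ← e2, Functor.map_comp,
        Functor.map_comp, hP.kun j k hkj]
      simp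
    · rw [q0 j hj, Functor.map_zero]
  · by_cases hj : j ∈ s
    · obtain ⟨a, b, h1, h2, h3, h4, h5⟩ := hsub j hj
      have e1 : b ≫ a = p j := h1
      have e4 : b ≫ P j = b := h4
      have e5 : p j ≫ b = b := h5
      refine ⟨i ≫ b, a ≫ r, ?_, ?_, ?_⟩
      · rw [q1 j hj, ← e1]; simp only [Category.assoc]
      · rw [q1 j hj]
        calc (i ≫ p j ≫ r) ≫ i ≫ b = i ≫ p j ≫ (r ≫ i) ≫ b := by simp only [Category.assoc]
          _ = i ≫ (p j ≫ (r ≫ i)) ≫ b := by simp only [Category.assoc]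
          _ = i ≫ b := by rw [k2 j hj, e5]
      · rw [Category.assoc, e4]
    · exact ⟨0, 0, by rw [q0 j hj, Limits.zero_comp], by rw [Limits.comp_zero],
        Limits.zero_comp⟩

theorem IsCK.orthSet {Q : 𝒜} {P : ℤ → (Q ⟶ Q)} (hP : IsCK H Q P) (s : Finset ℤ) :
    Orth (R := End Q) P s :=
  ⟨fun j _ => hP.idem j, fun j _ k _ hjk => hP.orth k j hjk.symm⟩

/-- The direct sum of Chow-Künneth decompositions. -/
theorem IsCK.add {Q M N : 𝒜} {iM : M ⟶ Q} {rM : Q ⟶ M} {iN : N ⟶ Q} {rN : Q ⟶ N}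
    (h1 : iM ≫ rM = 𝟙 M) (h2 : iN ≫ rN = 𝟙 N) (h3 : iM ≫ rN = 0) (h4 : iN ≫ rM = 0)
    (h5 : rM ≫ iM + rN ≫ iN = 𝟙 Q) {p : ℤ → (M ⟶ M)} {q : ℤ → (N ⟶ N)} (hp : IsCK H M p)
    (hq : IsCK H N q) : IsCK H Q fun j => rM ≫ p j ≫ iM + rN ≫ q j ≫ iN := by
  classical
  have key : ∀ j k, (rM ≫ p j ≫ iM + rN ≫ q j ≫ iN) ≫ (rM ≫ p k ≫ iM + rN ≫ q k ≫ iN) =
      rM ≫ (p j ≫ p k) ≫ iM + rN ≫ (q j ≫ q k) ≫ iN := by
    intro j k
    rw [Preadditive.comp_add, Preadditive.add_comp, Preadditive.add_comp]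
    have a1 : (rM ≫ p j ≫ iM) ≫ rM ≫ p k ≫ iM = rM ≫ (p j ≫ p k) ≫ iM := by
      rw [Category.assoc, Category.assoc, ← Category.assoc iM, h1, Category.id_comp,
        Category.assoc]
    have a2 : (rN ≫ q j ≫ iN) ≫ rM ≫ p k ≫ iM = 0 := by
      rw [Category.assoc, Category.assoc, ← Category.assoc iN, h4, Limits.zero_comp,
        Limits.comp_zero, Limits.comp_zero]
    have a3 : (rM ≫ p j ≫ iM) ≫ rN ≫ q k ≫ iN = 0 := by
      rw [Category.assoc, Category.assoc, ← Category.assoc iM, h3, Limits.zero_comp,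
        Limits.comp_zero, Limits.comp_zero]
    have a4 : (rN ≫ q j ≫ iN) ≫ rN ≫ q k ≫ iN = rN ≫ (q j ≫ q k) ≫ iN := by
      rw [Category.assoc, Category.assoc, ← Category.assoc iN, h2, Category.id_comp,
        Category.assoc]
    rw [a1, a2, a3, a4, add_zero, zero_add]
  obtain ⟨s, hs, hs'⟩ := hp.sum
  obtain ⟨t, ht, ht'⟩ := hq.sum
  refine ⟨fun j => ?_, fun j k hjk => ?_, ⟨s ∪ t, fun j hj => ?_, ?_⟩, fun j k hkj => ?_⟩
  · rw [key, hp.idem, hq.idem]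
  · rw [key, hp.orth j k hjk, hq.orth j k hjk]
    simp
  · rw [Finset.mem_union, not_or] at hj
    rw [hs j hj.1, ht j hj.2]
    simp
  · have e1 : ∑ j ∈ s ∪ t, p j = 𝟙 M := by
      rw [← hs']
      exact (Finset.sum_subset Finset.subset_union_left fun j _ hj => hs j hj).symm
    have e2 : ∑ j ∈ s ∪ t, q j = 𝟙 N := by
      rw [← ht']
      exact (Finset.sum_subset Finset.subset_union_right fun j _ hj => ht j hj).symm
    rw [Finset.sum_add_distrib, ← Preadditive.comp_sum, ← Preadditive.comp_sum,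
      ← Preadditive.sum_comp, ← Preadditive.sum_comp, e1, e2, Category.id_comp, Category.id_comp,
      h5]
  · rw [Functor.map_add, Functor.map_comp, Functor.map_comp, Functor.map_comp, Functor.map_comp,
      hp.kun j k hkj, hq.kun j k hkj]
    simp

theorem satB_add {Q M N : 𝒜} {iM : M ⟶ Q} {rM : Q ⟶ M} {iN : N ⟶ Q} {rN : Q ⟶ N}
    {p : ℤ → (M ⟶ M)} {q : ℤ → (N ⟶ N)} (hp : SatB T p) (hq : SatB T q) :
    SatB T fun j => rM ≫ p j ≫ iM + rN ≫ q j ≫ iN := by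
  intro l j f hj
  show f ≫ (rM ≫ p j ≫ iM + rN ≫ q j ≫ iN) = 0
  rw [Preadditive.comp_add, ← Category.assoc, ← Category.assoc, hp l j _ hj, ← Category.assoc f,
    ← Category.assoc (f ≫ rN), hq l j _ hj]
  simp

theorem satD_add {Q M N : 𝒜} {iM : M ⟶ Q} {rM : Q ⟶ M} {iN : N ⟶ Q} {rN : Q ⟶ N}
    (h1 : iM ≫ rM = 𝟙 M) (h2 : iN ≫ rN = 𝟙 N) (h3 : iM ≫ rN = 0) (h4 : iN ≫ rM = 0)
    {p : ℤ → (M ⟶ M)} {q : ℤ → (N ⟶ N)} (hp : SatD T H p) (hq : SatD T H q) :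
    SatD T H fun j => rM ≫ p j ≫ iM + rN ≫ q j ≫ iN := by
  intro l f hf
  show f ≫ (rM ≫ p (2 * l) ≫ iM + rN ≫ q (2 * l) ≫ iN) = 0
  have hf' : Triv H (f ≫ (rM ≫ p (2 * l) ≫ iM + rN ≫ q (2 * l) ≫ iN)) := hf
  have e1 : (f ≫ (rM ≫ p (2 * l) ≫ iM + rN ≫ q (2 * l) ≫ iN)) ≫ rM = (f ≫ rM) ≫ p (2 * l) := by
    simp only [Preadditive.comp_add, Preadditive.add_comp, Category.assoc, h1, h4,
      Category.comp_id, Limits.comp_zero, add_zero]
  have e2 : (f ≫ (rM ≫ p (2 * l) ≫ iM + rN ≫ q (2 * l) ≫ iN)) ≫ rN = (f ≫ rN) ≫ q (2 * l) := by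
    simp only [Preadditive.comp_add, Preadditive.add_comp, Category.assoc, h2, h3,
      Category.comp_id, Limits.comp_zero, zero_add]
  have k1 := hp l (f ≫ rM) (by rw [← e1]; exact hf'.comp rM)
  have k2 := hq l (f ≫ rN) (by rw [← e2]; exact hf'.comp rN)
  rw [Preadditive.comp_add, ← Category.assoc, ← Category.assoc, k1, ← Category.assoc f,
    ← Category.assoc (f ≫ rN), k2]
  simp

/-- (C) passes to summands which have a complement with a Chow-Künneth decomposition. -/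
theorem murreC_left {Q M N : 𝒜} (h : IsSum Q M N) (hN : MurreA H N) (hC : MurreC T H Q) :
    MurreC T H M := by
  obtain ⟨iM, rM, iN, rN, h1, h2, h3, h4, h5⟩ := h
  obtain ⟨q, hq⟩ := hN
  intro p p' hp hp' l ν f hf
  have k := hC _ _ (hp.add h1 h2 h3 h4 h5 hq) (hp'.add h1 h2 h3 h4 h5 hq) l ν (f ≫ iM)
  have key : ∀ (p : ℤ → (M ⟶ M)) (j : ℤ),
      (f ≫ iM) ≫ (rM ≫ p j ≫ iM + rN ≫ q j ≫ iN) = (f ≫ p j) ≫ iM := by
    intro p j
    rw [Preadditive.comp_add]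
    have a1 : (f ≫ iM) ≫ rM ≫ p j ≫ iM = (f ≫ p j) ≫ iM := by
      rw [Category.assoc, ← Category.assoc iM, h1, Category.id_comp, Category.assoc]
    have a2 : (f ≫ iM) ≫ rN ≫ q j ≫ iN = 0 := by
      rw [Category.assoc, ← Category.assoc iM, h3, Limits.zero_comp, Limits.comp_zero]
    rw [a1, a2, add_zero]
  intro j hj
  have k1 := k (fun i hi => by
    show (f ≫ iM) ≫ (rM ≫ p i ≫ iM + rN ≫ q i ≫ iN) = 0
    rw [key, hf i hi, Limits.zero_comp]) j hj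
  have k2 : (f ≫ p' j) ≫ iM = 0 := by
    rw [← key]; exact k1
  calc f ≫ p' j = ((f ≫ p' j) ≫ iM) ≫ rM := by rw [Category.assoc, h1, Category.comp_id]
    _ = 0 := by rw [k2, Limits.zero_comp]

end

section

variable [Linear ℚ 𝒜] {H : ℤ → 𝒜 ⥤ 𝒢} [∀ j, (H j).Additive] {T : ℤ → 𝒜}

/-- The endomorphisms of `N` and the corner ring. -/
theorem algCorner_of_algebraicEnd {Q N : 𝒜} {i : N ⟶ Q} {r : Q ⟶ N}
    (hN : AlgebraicEnd N) : AlgCorner ℚ (R := End Q) (r ≫ i : Q ⟶ Q) := by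
  intro z hz1 hz2
  have hz1' : z ≫ (r ≫ i) = z := hz1
  have hz2' : (r ≫ i) ≫ z = z := hz2
  let y : End N := (i ≫ z ≫ r : N ⟶ N)
  obtain ⟨P, hP0, hP⟩ := hN y
  refine ⟨X * P, mul_ne_zero X_ne_zero hP0, ?_⟩
  have key : ∀ Q' : ℚ[X], z ≫ (r ≫ (show N ⟶ N from aeval y Q') ≫ i) =
      z ≫ (show Q ⟶ Q from aeval z Q') := by
    intro Q'
    induction Q' using Polynomial.induction_on' with
    | add p q hp hq =>
      have e1 : (show N ⟶ N from aeval y (p + q)) =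
        (show N ⟶ N from aeval y p) + (show N ⟶ N from aeval y q) := map_add (aeval y) p q
      have e2 : (show Q ⟶ Q from aeval z (p + q)) =
        (show Q ⟶ Q from aeval z p) + (show Q ⟶ Q from aeval z q) := map_add (aeval z) p q
      rw [e1, e2, Preadditive.add_comp, Preadditive.comp_add, Preadditive.comp_add,
        Preadditive.comp_add, hp, hq]
    | monomial n a =>
      have h7 : ∀ n : ℕ, z ≫ (r ≫ (show N ⟶ N from y ^ n) ≫ i) =
          z ≫ (show Q ⟶ Q from z ^ n) := by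
        intro n
        induction n with
        | zero =>
          have e1 : (show N ⟶ N from y ^ 0) = 𝟙 N := pow_zero y
          have e2 : (show Q ⟶ Q from z ^ 0) = 𝟙 Q := pow_zero z
          rw [e1, e2, Category.id_comp, hz1', Category.comp_id]
        | succ n ih =>
          have e1 : (show N ⟶ N from y ^ (n + 1)) = (show N ⟶ N from y ^ n) ≫ (i ≫ z ≫ r) :=
            pow_succ' y n
          have e2 : (show Q ⟶ Q from z ^ (n + 1)) = (show Q ⟶ Q from z ^ n) ≫ z :=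
            pow_succ' z n
          rw [e1, e2, ← Category.assoc z (show Q ⟶ Q from z ^ n), ← ih]
          simp only [Category.assoc]
          rw [hz1']
      have e1 : (show N ⟶ N from aeval y (monomial n a)) = a • (show N ⟶ N from y ^ n) := by
        show (aeval y (monomial n a) : End N) = a • (y ^ n : End N)
        rw [aeval_monomial, ← Algebra.smul_def]
      have e2 : (show Q ⟶ Q from aeval z (monomial n a)) = a • (show Q ⟶ Q from z ^ n) := by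
        show (aeval z (monomial n a) : End Q) = a • (z ^ n : End Q)
        rw [aeval_monomial, ← Algebra.smul_def]
      rw [e1, e2, Linear.smul_comp, Linear.comp_smul, Linear.comp_smul, Linear.comp_smul, h7]
  rw [mul_comm X P, map_mul, aeval_X]
  have e3 : (show N ⟶ N from aeval y P) = 0 := hP
  have e4 := key P
  rw [e3, Limits.zero_comp, Limits.comp_zero, Limits.comp_zero] at e4
  exact e4.symm

theorem algebraicEnd_of_finiteModNil {N : 𝒜} (h : FiniteModNil N) : AlgebraicEnd N := by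
  obtain ⟨n, φ, hφ⟩ := h
  intro f
  let ψ : ℚ[X] →ₗ[ℚ] (Fin n → ℚ) := φ ∘ₗ (aeval f).toLinearMap
  have hker : ¬ Function.Injective ψ := by
    intro hinj
    have h1 : FiniteDimensional ℚ ℚ[X] := FiniteDimensional.of_injective ψ hinj
    exact Polynomial.not_finite h1
  obtain ⟨P, hP, hP0⟩ : ∃ P : ℚ[X], ψ P = 0 ∧ P ≠ 0 := by
    by_contra hne
    push Not at hne
    exact hker ((injective_iff_map_eq_zero ψ).2 hne)
  obtain ⟨m, hm⟩ := hφ (aeval f P) hP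
  exact ⟨P ^ m, pow_ne_zero m hP0, by rw [map_pow, hm]⟩

/-- Summand data in the endomorphism ring. -/
theorem sum_data {Q M N : 𝒜} {iM : M ⟶ Q} {rM : Q ⟶ M} {iN : N ⟶ Q} {rN : Q ⟶ N}
    (h1 : iM ≫ rM = 𝟙 M) (h2 : iN ≫ rN = 𝟙 N) (h3 : iM ≫ rN = 0) (h4 : iN ≫ rM = 0) :
    ((rN ≫ iN) ≫ (rN ≫ iN) = rN ≫ iN) ∧ ((rM ≫ iM) ≫ (rM ≫ iM) = rM ≫ iM) ∧
      ((rM ≫ iM) ≫ (rN ≫ iN) = 0) ∧ ((rN ≫ iN) ≫ (rM ≫ iM) = 0) := by
  refine ⟨?_, ?_, ?_, ?_⟩
  · rw [Category.assoc, ← Category.assoc iN, h2, Category.id_comp]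
  · rw [Category.assoc, ← Category.assoc iM, h1, Category.id_comp]
  · rw [Category.assoc, ← Category.assoc iM, h3, Limits.zero_comp, Limits.comp_zero]
  · rw [Category.assoc, ← Category.assoc iN, h4, Limits.zero_comp, Limits.comp_zero]

/-- **Complements with algebraic endomorphisms.** -/
theorem ck_of_complement {Q M N : 𝒜} (h : IsSum Q M N) (hN : AlgebraicEnd N)
    {P : ℤ → (Q ⟶ Q)} (hP : IsCK H Q P) :
    (∃ q : ℤ → (M ⟶ M), IsCK H M q ∧ ∀ j, Below (q j) (P j)) ∧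
      ∃ q : ℤ → (N ⟶ N), IsCK H N q ∧ ∀ j, Below (q j) (P j) := by
  obtain ⟨iM, rM, iN, rN, h1, h2, h3, h4, h5⟩ := h
  obtain ⟨s, hs, hs'⟩ := hP.sum
  obtain ⟨d1, d2, d3, d4⟩ := sum_data h1 h2 h3 h4
  have k := refines_of_alg (F := ℚ) (R := End Q) P s (hP.orthSet s) (rN ≫ iN) (rM ≫ iM) d1 d2 d3 d4
    (by
      have e : rN ≫ iN + rM ≫ iM = ∑ j ∈ s, P j := by rw [hs', ← h5, add_comm]
      exact e) (algCorner_of_algebraicEnd hN)
  exact ⟨ck_of_refines h1 hP k.2, ck_of_refines h2 hP k.1⟩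

/-- **All summands, if all pieces but one have algebraic endomorphisms.** -/
theorem ck_of_pieces {Q M N : 𝒜} (h : IsSum Q M N) {P : ℤ → (Q ⟶ Q)} (hP : IsCK H Q P) (w : ℤ)
    (hw : ∀ j, j ≠ w → AlgebraicPiece (P j)) :
    ∃ q : ℤ → (M ⟶ M), IsCK H M q ∧ ∀ j, Below (q j) (P j) := by
  classical
  obtain ⟨iM, rM, iN, rN, h1, h2, h3, h4, h5⟩ := h
  obtain ⟨s, hs, hs'⟩ := hP.sum
  obtain ⟨d1, d2, d3, d4⟩ := sum_data h1 h2 h3 h4
  set t := s.erase w with ht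
  have hwt : w ∉ t := Finset.notMem_erase w s
  have hsum : ∑ j ∈ insert w t, P j = 𝟙 Q := by
    by_cases hws : w ∈ s
    · rw [ht, Finset.insert_erase hws, hs']
    · rw [ht, Finset.erase_eq_of_notMem hws, Finset.sum_insert hws, hs w hws, zero_add, hs']
  have e : rM ≫ iM + rN ≫ iN = ∑ j ∈ insert w t, P j := by rw [hsum, h5]
  have e' : (∑ j ∈ insert w t, P j) ≫ (∑ j ∈ insert w t, P j) = ∑ j ∈ insert w t, P j := by
    rw [hsum, Category.comp_id]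
  have k := refines_of_pieces (F := ℚ) (R := End Q) P w t hwt (hP.orthSet _)
    (fun j hj z hz1 hz2 => hw j (Finset.ne_of_mem_erase hj) z hz2 hz1) (rM ≫ iM) (rN ≫ iN) d2 d1 d4
      d3 (by
      have e2 : ((rM ≫ iM : Q ⟶ Q) : End Q) + ((rN ≫ iN : Q ⟶ Q) : End Q) =
        ∑ j ∈ insert w t, (P j : End Q) := e
      rw [e2]
      exact Eqv.refl e')
  exact ck_of_refines h1 hP k

end

end Pool.Agent.H88.MX
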