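import Mathlib

/-!
# Exchange of idempotents with algebraic corner rings
-/

set_option autoImplicit false
set_option linter.unusedSectionVars false

open Polynomial

namespace Pool.Agent.H88.MX

variable {F R : Type*} [Field F] [Ring R] [Algebra F R]

/-- All elements of the corner ring `e R e` are algebraic. -/
def AlgCorner (F : Type*) {R : Type*} [Field F] [Ring R] [Algebra F R] (e : R) : Prop :=
  ∀ x, e * x = x → x * e = x → IsAlgebraic F x

/-- The idempotents `x` and `y` are isomorphic. -/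
def Eqv (x y : R) : Prop := ∃ s t : R, s * t = x ∧ t * s = y ∧ x * s = s ∧ s * y = s ∧ y * t = t ∧
  t * x = t

/-- The idempotent `x` is isomorphic to a summand of `y`. -/
def Sub (x y : R) : Prop := ∃ s t : R, s * t = x ∧ x * s = s ∧ s * y = s ∧ y * t = t ∧ t * x = t

theorem Eqv.symm {x y : R} (h : Eqv x y) : Eqv y x := by
  obtain ⟨s, t, h1, h2, h3, h4, h5, h6⟩ := h
  exact ⟨t, s, h2, h1, h5, h6, h3, h4⟩

theorem Eqv.refl {x : R} (h : x * x = x) : Eqv x x := ⟨x, x, h, h, h, h, h, h⟩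

theorem Eqv.trans {x y z : R} (h : Eqv x y) (h' : Eqv y z) : Eqv x z := by
  obtain ⟨s, t, h1, h2, h3, h4, h5, h6⟩ := h
  obtain ⟨s', t', k1, k2, k3, k4, k5, k6⟩ := h'
  refine ⟨s * s', t' * t, ?_, ?_, ?_, ?_, ?_, ?_⟩
  · rw [mul_assoc, ← mul_assoc s' t' t, k1, h5, h1]
  · rw [mul_assoc, ← mul_assoc t s s', h2, k3, k2]
  · rw [← mul_assoc, h3]
  · rw [mul_assoc, k4]
  · rw [← mul_assoc, k5]
  · rw [mul_assoc, h6]

theorem Eqv.sub {x y : R} (h : Eqv x y) : Sub x y := by
  obtain ⟨s, t, h1, h2, h3, h4, h5, h6⟩ := h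
  exact ⟨s, t, h1, h3, h4, h5, h6⟩

theorem Sub.trans {x y z : R} (h : Sub x y) (h' : Sub y z) : Sub x z := by
  obtain ⟨s, t, h1, h3, h4, h5, h6⟩ := h
  obtain ⟨s', t', k1, k3, k4, k5, k6⟩ := h'
  refine ⟨s * s', t' * t, ?_, ?_, ?_, ?_, ?_⟩
  · rw [mul_assoc, ← mul_assoc s' t' t, k1, h5, h1]
  · rw [← mul_assoc, h3]
  · rw [mul_assoc, k4]
  · rw [← mul_assoc, k5]
  · rw [mul_assoc, h6]

/-- An idempotent below `y`. -/
theorem Sub.of_le {x y : R} (h : x * x = x) (h1 : x * y = x) (h2 : y * x = x) : Sub x y :=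
  ⟨x, x, h, h, h1, h2, h⟩

theorem Eqv.add {x y x' y' : R} (h : Eqv x y) (h' : Eqv x' y') (hx : x * x' = 0) (hx' : x' * x = 0)
    (hy : y * y' = 0) (hy' : y' * y = 0) : Eqv (x + x') (y + y') := by
  obtain ⟨s, t, h1, h2, h3, h4, h5, h6⟩ := h
  obtain ⟨s', t', k1, k2, k3, k4, k5, k6⟩ := h'
  have a1 : s * t' = 0 := by rw [← h4, ← k5, mul_assoc, ← mul_assoc y, hy, zero_mul, mul_zero]
  have a2 : s' * t = 0 := by rw [← k4, ← h5, mul_assoc, ← mul_assoc y', hy', zero_mul, mul_zero]
  have a3 : t * s' = 0 := by rw [← h6, ← k3, mul_assoc, ← mul_assoc x, hx, zero_mul, mul_zero]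
  have a4 : t' * s = 0 := by rw [← k6, ← h3, mul_assoc, ← mul_assoc x', hx', zero_mul, mul_zero]
  have a5 : x * s' = 0 := by rw [← k3, ← mul_assoc, hx, zero_mul]
  have a6 : x' * s = 0 := by rw [← h3, ← mul_assoc, hx', zero_mul]
  have a7 : s * y' = 0 := by rw [← h4, mul_assoc, hy, mul_zero]
  have a8 : s' * y = 0 := by rw [← k4, mul_assoc, hy', mul_zero]
  have a9 : y * t' = 0 := by rw [← k5, ← mul_assoc, hy, zero_mul]
  have a10 : y' * t = 0 := by rw [← h5, ← mul_assoc, hy', zero_mul]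
  have a11 : t * x' = 0 := by rw [← h6, mul_assoc, hx, mul_zero]
  have a12 : t' * x = 0 := by rw [← k6, mul_assoc, hx', mul_zero]
  refine ⟨s + s', t + t', ?_, ?_, ?_, ?_, ?_, ?_⟩
  · rw [add_mul, mul_add, mul_add, h1, k1, a1, a2, add_zero, zero_add]
  · rw [add_mul, mul_add, mul_add, h2, k2, a3, a4, add_zero, zero_add]
  · rw [add_mul, mul_add, mul_add, h3, k3, a5, a6, add_zero, zero_add]
  · rw [add_mul, mul_add, mul_add, h4, k4, a7, a8, add_zero, zero_add]
  · rw [add_mul, mul_add, mul_add, h5, k5, a9, a10, add_zero, zero_add]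
  · rw [add_mul, mul_add, mul_add, h6, k6, a11, a12, add_zero, zero_add]

/-- Algebraicity of corner rings passes to summands. -/
theorem AlgCorner.of_sub {e x : R} (h : Sub x e) (he : AlgCorner F e) : AlgCorner F x := by
  obtain ⟨s, t, h1, h3, h4, h5, h6⟩ := h
  intro z hz1 hz2
  have hy := he (t * z * s) (by rw [← mul_assoc, ← mul_assoc, h5]) (by rw [mul_assoc, h4])
  obtain ⟨P, hP0, hP⟩ := hy
  refine ⟨X * P, mul_ne_zero X_ne_zero hP0, ?_⟩
  have key : ∀ Q : F[X], z * (s * aeval (t * z * s) Q * t) = z * aeval z Q := by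
    intro Q
    induction Q using Polynomial.induction_on' with
    | add p q hp hq =>
      rw [map_add, map_add, mul_add, add_mul, mul_add, hp, hq, mul_add]
    | monomial n a =>
      rw [aeval_monomial, aeval_monomial]
      have h7 : ∀ n : ℕ, z * (s * (t * z * s) ^ n * t) = z * z ^ n := by
        intro n
        induction n with
        | zero =>
          rw [pow_zero, mul_one, pow_zero, mul_one, h1, hz2]
        | succ n ih =>
          rw [pow_succ, pow_succ, ← mul_assoc z (z ^ n) z, ← ih]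
          have h8 : s * ((t * z * s) ^ n * (t * z * s)) * t = s * (t * z * s) ^ n * t * (z * x) := by
            rw [← h1]; noncomm_ring
          rw [h8, hz2, ← mul_assoc]
      have h9 : s * (algebraMap F R a * (t * z * s) ^ n) * t =
          algebraMap F R a * (s * (t * z * s) ^ n * t) := by
        rw [← mul_assoc s, ← Algebra.commutes a s]
        noncomm_ring
      rw [h9, ← mul_assoc z, ← Algebra.commutes a z, mul_assoc, h7, ← mul_assoc, ← mul_assoc,
        Algebra.commutes a z]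
  rw [map_mul, aeval_X, ← key, hP, mul_zero, zero_mul, mul_zero]

theorem comm_aeval {e a : R} (h : e * a = a * e) (P : F[X]) : e * aeval a P = aeval a P * e := by
  induction P using Polynomial.induction_on' with
  | add p q hp hq => rw [map_add, mul_add, add_mul, hp, hq]
  | monomial n c =>
    rw [aeval_monomial]
    have h1 : e * a ^ n = a ^ n * e := (Commute.pow_right (show Commute e a from h) n)
    rw [← mul_assoc, ← Algebra.commutes c e, mul_assoc, h1, mul_assoc]

/-- The idempotent attached to an element of an algebraic corner ring. -/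
theorem exists_idem {e a : R} (he : e * e = e) (ha1 : e * a = a) (ha2 : a * e = a)
    (ha : IsAlgebraic F a) : ∃ h x y : R, h * h = h ∧ e * h = h ∧ h * e = h ∧ a * x = h ∧ x * a = h ∧
      h * x = x ∧ x * h = x ∧ (e - a) * y = e - h ∧ y * (e - a) = e - h ∧ h * y = 0 ∧ y * h = 0 ∧
      e * x = x ∧ x * e = x ∧ e * y = y ∧ y * e = y := by
  obtain ⟨P, hP0, hP⟩ := ha
  obtain ⟨k, P₁, hP₁, hPe⟩ : ∃ (k : ℕ) (P₁ : F[X]), P₁.coeff 0 ≠ 0 ∧ P = X ^ k * P₁ := by
    obtain ⟨Q', hQ1, hQ2⟩ := exists_eq_pow_rootMultiplicity_mul_and_not_dvd P hP0 (0 : F)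
    refine ⟨P.rootMultiplicity 0, Q', ?_, ?_⟩
    · intro h0
      apply hQ2
      rw [C_0, sub_zero]
      exact X_dvd_iff.2 h0
    · rw [C_0, sub_zero] at hQ1
      exact hQ1
  have hcop : IsCoprime (X ^ (k + 1) : F[X]) P₁ := by
    refine IsCoprime.pow_left ⟨-(C (P₁.coeff 0)⁻¹ * divX P₁), C (P₁.coeff 0)⁻¹, ?_⟩
    have h1 := divX_mul_X_add P₁
    have h2 : (C (P₁.coeff 0)⁻¹ : F[X]) * C (P₁.coeff 0) = 1 := by
      rw [← C_mul, inv_mul_cancel₀ hP₁, C_1]
    calc -(C (P₁.coeff 0)⁻¹ * divX P₁) * X + C (P₁.coeff 0)⁻¹ * P₁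
        = -(C (P₁.coeff 0)⁻¹ * divX P₁) * X +
          C (P₁.coeff 0)⁻¹ * (divX P₁ * X + C (P₁.coeff 0)) := by rw [h1]
      _ = C (P₁.coeff 0)⁻¹ * C (P₁.coeff 0) := by ring
      _ = 1 := h2
  obtain ⟨U, V, hUV⟩ := hcop
  -- polynomials in `a`
  set A : F[X] → R := fun Q => aeval a Q with hA
  have hAm : ∀ Q Q', A (Q * Q') = A Q * A Q' := fun Q Q' => map_mul _ _ _
  have hAc : ∀ Q Q', A Q * A Q' = A Q' * A Q := fun Q Q' => by rw [← hAm, mul_comm, hAm]
  have hAX : A X = a := aeval_X a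
  have hA1 : A 1 = 1 := map_one _
  have hAa : ∀ Q, A Q * a = a * A Q := fun Q => by rw [← hAX]; exact hAc _ _
  have hAe : ∀ Q, e * A Q = A Q * e := comm_aeval (by rw [ha1, ha2])
  have hAs : ∀ Q Q', A (Q - Q') = A Q - A Q' := fun Q Q' => map_sub _ _ _
  have hP' : A P = 0 := hP
  have hPk : A (X ^ (k + 1) * P₁) = 0 := by
    have : (X ^ (k + 1) * P₁ : F[X]) = X * P := by rw [hPe]; ring
    rw [this, hAm, hP', mul_zero]
  set h := A (U * X ^ (k + 1)) with hh
  have hh1 : 1 - h = A (V * P₁) := by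
    rw [hh, ← hA1, ← hAs]
    congr 1
    rw [← hUV]; ring
  have hhh : h * h = h := by
    have h1 : h * (1 - h) = 0 := by
      rw [hh1, hh, ← hAm]
      have : (U * X ^ (k + 1) * (V * P₁) : F[X]) = (U * V) * (X ^ (k + 1) * P₁) := by ring
      rw [this, hAm, hPk, mul_zero]
    rw [mul_sub, mul_one, sub_eq_zero] at h1
    exact h1.symm
  have hha : h = a * A (U * X ^ k) := by
    rw [hh, ← hAX, ← hAm]
    congr 1
    ring
  have heh : e * h = h := by rw [hha, ← mul_assoc, ha1]
  have hhe : h * e = h := by rw [← hAe, heh]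
  have hah : a * h = h * a := (hAa _).symm
  set x := A (U * X ^ k) * h with hx
  have hax : a * x = h := by rw [hx, ← mul_assoc, ← hha, hhh]
  have hAh : ∀ Q, A Q * h = h * A Q := fun Q => hAc _ _
  have hxa : x * a = h := by rw [hx, mul_assoc, ← hah, ← mul_assoc, hAa, ← hha, hhh]
  set G := A (∑ j ∈ Finset.range (k + 1), X ^ j) with hG
  set y := G * (e - h) with hy
  have hGe : e * G = G * e := hAe _
  have hey : e * y = y := by
    rw [hy, ← mul_assoc, hGe, mul_assoc, mul_sub, he, heh]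
  have hye : y * e = y := by rw [hy, mul_assoc, sub_mul, he, hhe]
  have hak : A (X ^ (k + 1)) * (e - h) = 0 := by
    have h1 : A (X ^ (k + 1)) * e = A (X ^ (k + 1)) := by
      rw [pow_succ, hAm, hAX, mul_assoc, ha2]
    rw [mul_sub, h1]
    have h2 : A (X ^ (k + 1)) - A (X ^ (k + 1)) * h = A (X ^ (k + 1)) * (1 - h) := by
      rw [mul_sub, mul_one]
    rw [h2, hh1, ← hAm]
    have : (X ^ (k + 1) * (V * P₁) : F[X]) = V * (X ^ (k + 1) * P₁) := by ring
    rw [this, hAm, hPk, mul_zero]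
  have hgeo : (1 - a) * G = 1 - A (X ^ (k + 1)) := by
    rw [hG, ← hAX, ← hA1, ← hAs, ← hAm, ← hAs]
    congr 1
    exact mul_neg_geom_sum X (k + 1)
  have hay : (e - a) * y = e - h := by
    rw [sub_mul, hey]
    have h1 : y - a * y = (1 - a) * G * (e - h) := by
      rw [hy, mul_assoc (1 - a), sub_mul, one_mul]
    rw [h1, hgeo, sub_mul, one_mul, hak, sub_zero]
  have hyc : y * (e - a) = (e - a) * y := by
    rw [mul_sub, sub_mul, hye, hey]
    congr 1
    rw [hy, mul_assoc, ← mul_assoc a, ← hAa]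
    rw [mul_assoc G a]
    congr 1
    rw [sub_mul, mul_sub, ha1, ha2, hah]
  refine ⟨h, x, y, hhh, heh, hhe, hax, hxa, ?_, ?_, hay, by rw [hyc, hay], ?_, ?_, ?_, ?_, hey, hye⟩
  · rw [hx, ← mul_assoc, ← hAh, mul_assoc, hhh]
  · rw [hx, mul_assoc, hhh]
  · rw [hy, ← mul_assoc, ← hAh, mul_assoc, mul_sub, hhe, hhh, sub_self, mul_zero]
  · rw [hy, mul_assoc, sub_mul, heh, hhh, sub_self, mul_zero]
  · rw [hx, ← mul_assoc, hAe, mul_assoc, heh]
  · rw [hx, mul_assoc, hhe]

/-- **Exchange.** -/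
theorem exchange {e f A B : R} (he : e * e = e) (hf : f * f = f) (hef : e * f = 0)
    (hfe : f * e = 0) (hA : A * A = A) (hB : B * B = B) (hAB : A * B = 0) (hBA : B * A = 0)
    (hsum : e + f = A + B) (hN : AlgCorner F e) :
    ∃ A₁ A₂ B₁ B₂ : R, A₁ + A₂ = A ∧ B₁ + B₂ = B ∧ A₁ * A₁ = A₁ ∧ A₂ * A₂ = A₂ ∧ A₁ * A₂ = 0 ∧
      A₂ * A₁ = 0 ∧ B₁ * B₁ = B₁ ∧ B₂ * B₂ = B₂ ∧ B₁ * B₂ = 0 ∧ B₂ * B₁ = 0 ∧
      Eqv e (A₂ + B₂) ∧ Eqv f (A₁ + B₁) := by
  set g := e + f with hg
  have hge : g * e = e := by rw [hg, add_mul, he, hfe, add_zero]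
  have heg : e * g = e := by rw [hg, mul_add, he, hef, add_zero]
  have hgA : g * A = A := by rw [hsum, add_mul, hA, hBA, add_zero]
  have hAg : A * g = A := by rw [hsum, mul_add, hA, hAB, add_zero]
  have hgB : g * B = B := by rw [hsum, add_mul, hB, hAB, zero_add]
  have hBg : B * g = B := by rw [hsum, mul_add, hB, hBA, zero_add]
  have hgg : g * g = g := by rw [hsum, add_mul, mul_add, mul_add, hA, hB, hAB, hBA]; abel
  have heBe : e * B * e = e - e * A * e := by
    have h1 : e * (A + B) * e = e := by rw [← hsum, heg, he]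
    rw [mul_add, add_mul] at h1
    exact eq_sub_of_add_eq' h1
  obtain ⟨h, x, y, hhh, heh, hhe, hax, hxa, hhx, hxh, hay, hya, hhy, hyh, hex, hxe, hey, hye⟩ :=
    exists_idem (F := F) (a := e * A * e) he (by rw [← mul_assoc, ← mul_assoc, he])
      (by rw [mul_assoc, he]) (hN _ (by rw [← mul_assoc, ← mul_assoc, he])
      (by rw [mul_assoc, he]))
  rw [← heBe] at hay hya
  -- the compositions with `A` and `B`
  have r1 : x * A * h = h := by
    calc x * A * h = (x * e) * A * (e * h) := by rw [hxe, heh]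
      _ = x * (e * A * e) * h := by noncomm_ring
      _ = h := by rw [hxa, hhh]
  have r1' : h * A * x = h := by
    calc h * A * x = (h * e) * A * (e * x) := by rw [hhe, hex]
      _ = h * ((e * A * e) * x) := by noncomm_ring
      _ = h := by rw [hax, hhh]
  have r2 : y * B * (e - h) = e - h := by
    have h1 : e * (e - h) = e - h := by rw [mul_sub, he, heh]
    have h2 : (e - h) * (e - h) = e - h := by
      rw [mul_sub, sub_mul, sub_mul, he, heh, hhe, hhh]; abel
    calc y * B * (e - h) = (y * e) * B * (e * (e - h)) := by rw [hye, h1]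
      _ = y * (e * B * e) * (e - h) := by noncomm_ring
      _ = e - h := by rw [hya, h2]
  have r3 : y * (e - h) = y := by rw [mul_sub, hye, hyh, sub_zero]
  have r3' : (e - h) * y = y := by rw [sub_mul, hey, hhy, sub_zero]
  have r4 : x * (e - h) = 0 := by rw [mul_sub, hxe, hxh, sub_self]
  have r4' : (e - h) * x = 0 := by rw [sub_mul, hex, hhx, sub_self]
  have r5 : x * A * e = h := by
    calc x * A * e = (x * e) * A * e := by rw [hxe]
      _ = x * (e * A * e) := by noncomm_ring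
      _ = h := hxa
  have r6 : y * B * e = e - h := by
    calc y * B * e = (y * e) * B * e := by rw [hye]
      _ = y * (e * B * e) := by noncomm_ring
      _ = e - h := hya
  -- the morphisms
  set σ := A * h + B * (e - h) with hσ
  set θ := x * A + y * B with hθ
  have t1 : θ * σ = e := by
    rw [hθ, hσ]
    calc (x * A + y * B) * (A * h + B * (e - h))
        = x * (A * A) * h + x * (A * B) * (e - h) + y * (B * A) * h + y * (B * B) * (e - h) := by
          noncomm_ring
      _ = e := by rw [hA, hB, hAB, hBA, r1, r2]; noncomm_ring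
  have t2 : σ * θ = A * x * A + B * y * B := by
    rw [hθ, hσ]
    calc (A * h + B * (e - h)) * (x * A + y * B)
        = A * (h * x) * A + A * (h * y) * B + B * ((e - h) * x) * A + B * ((e - h) * y) * B := by
          noncomm_ring
      _ = A * x * A + B * y * B := by rw [hhx, hhy, r4', r3']; noncomm_ring
  have t3 : e * θ = θ := by rw [hθ, mul_add, ← mul_assoc, ← mul_assoc, hex, hey]
  have t4 : θ * e = e := by rw [hθ, add_mul, r5, r6]; abel
  have t5 : σ * e = σ := by
    rw [hσ, add_mul, mul_assoc, mul_assoc, hhe, sub_mul, he, hhe]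
  have t6 : g * σ = σ := by rw [hσ, mul_add, ← mul_assoc, ← mul_assoc, hgA, hgB]
  have t7 : θ * g = θ := by rw [hθ, add_mul, mul_assoc, mul_assoc, hAg, hBg]
  have t8 : g * θ = θ := by rw [← t3, ← mul_assoc, hge]
  have t9 : θ * θ = θ := by
    calc θ * θ = θ * (e * θ) := by rw [t3]
      _ = (θ * e) * θ := by rw [mul_assoc]
      _ = θ := by rw [t4, t3]
  have t10 : θ * (σ * θ) = θ := by rw [← mul_assoc, t1, t3]
  have t11 : (σ * θ) * σ = σ := by rw [mul_assoc, t1, t5]
  -- the idempotents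
  have i1 : (A * x * A) * (A * x * A) = A * x * A := by
    calc (A * x * A) * (A * x * A) = A * x * (A * A) * (x * A) := by noncomm_ring
      _ = A * (x * A * (h * x)) * A := by rw [hA, hhx]; noncomm_ring
      _ = A * ((x * A * h) * x) * A := by noncomm_ring
      _ = A * x * A := by rw [r1, hhx]
  have i2 : (B * y * B) * (B * y * B) = B * y * B := by
    calc (B * y * B) * (B * y * B) = B * y * (B * B) * (y * B) := by noncomm_ring
      _ = B * (y * B * ((e - h) * y)) * B := by rw [hB, r3']; noncomm_ring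
      _ = B * ((y * B * (e - h)) * y) * B := by noncomm_ring
      _ = B * y * B := by rw [r2, r3']
  have i3 : A * (A * x * A) = A * x * A := by rw [← mul_assoc, ← mul_assoc, hA]
  have i3' : (A * x * A) * A = A * x * A := by rw [mul_assoc, hA]
  have i4 : B * (B * y * B) = B * y * B := by rw [← mul_assoc, ← mul_assoc, hB]
  have i4' : (B * y * B) * B = B * y * B := by rw [mul_assoc, hB]
  set k := g - σ * θ with hk
  have hke : k = (A - A * x * A) + (B - B * y * B) := by rw [hk, t2, hsum]; abel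
  refine ⟨A - A * x * A, A * x * A, B - B * y * B, B * y * B, by abel, by abel, ?_, i1, ?_, ?_, ?_,
    i2, ?_, ?_, ?_, ?_⟩
  · rw [mul_sub, sub_mul, sub_mul, hA, i1, i3, i3']; abel
  · rw [sub_mul, i3, i1, sub_self]
  · rw [mul_sub, i3', i1, sub_self]
  · rw [mul_sub, sub_mul, sub_mul, hB, i2, i4, i4']; abel
  · rw [sub_mul, i4, i2, sub_self]
  · rw [mul_sub, i4', i2, sub_self]
  · rw [← t2]
    exact ⟨θ, σ, t1, rfl, t3, t10, t11, t5⟩
  · rw [← hke]
    have hfg : f = g - e := by rw [hg]; abel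
    set G := g - θ with hG
    have u1 : f * G = f := by
      rw [hfg, hG, mul_sub, sub_mul, sub_mul, hgg, heg, t8, t3]; abel
    have u2 : G * f = G := by
      rw [hfg, hG, mul_sub, sub_mul, sub_mul, hgg, hge, t7, t4]; abel
    have u3 : G * k = k := by
      have e1 : g * (σ * θ) = σ * θ := by rw [← mul_assoc, t6]
      rw [hG, hk, mul_sub, sub_mul, sub_mul, hgg, e1, t7, t10]; abel
    have u4 : k * G = G := by
      have e1 : (σ * θ) * g = σ * θ := by rw [mul_assoc, t7]
      have e2 : (σ * θ) * θ = σ * θ := by rw [mul_assoc, t9]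
      rw [hG, hk, mul_sub, sub_mul, sub_mul, hgg, t8, e1, e2]; abel
    have u5 : k * k = k := by
      have e1 : (σ * θ) * g = σ * θ := by rw [mul_assoc, t7]
      have e3 : g * (σ * θ) = σ * θ := by rw [← mul_assoc, t6]
      have e4 : (σ * θ) * (σ * θ) = σ * θ := by rw [mul_assoc, t10]
      rw [hk, mul_sub, sub_mul, sub_mul, hgg, e1, e3, e4]; abel
    refine ⟨f * k, G, ?_, ?_, ?_, ?_, ?_, ?_⟩
    · rw [mul_assoc, u4, u1]
    · rw [← mul_assoc, u2, u3]
    · rw [← mul_assoc, hf]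
    · rw [mul_assoc, u5]
    · exact u4
    · exact u2

end Pool.Agent.H88.MX
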